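import Mathlib

/-!
# Every contracted modular numerical semigroup admits a Toms decomposition

For a gap `g` of `S = T(a,b,c) ∪ {0}` put `n = ⌊a g / b⌋`. For every nonzero `s ∈ S` there is an
integer `k` with `n s < k g < (n + 1) s`: for `s < g` take `k = ⌊a s / b⌋`, for `s > g` the open
interval `(n s / g, (n + 1) s / g)` has length greater than one. Hence a closed interval with end
points `e / q`, `f / m` slightly inside `(n / g, (n + 1) / g)` separates `g` from `S`, and
`{x : ∃ k, e x ≤ k q, k m ≤ f x} = ⟨q, m⟩ / L` for `L = f q - e m`. The end points can be chosen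
so that `L` is any prescribed large prime number.
-/

namespace Pool.Agent.Results.MP_94066b_nt.ContractedModularToms

/-- `T(a,b,c)`: the set of the integers `x` with `(a x mod b) ≤ x - c`, where `a x mod b` is the
remainder in `{0, …, b - 1}`. -/
def T (a b c : ℕ) : Set ℤ := {x : ℤ | ((a : ℤ) * x) % (b : ℤ) ≤ x - (c : ℤ)}

/-- Membership in `⟨q, m⟩ / L`. -/
lemma key {L q m e f x : ℤ} (hq : 0 < q) (_hm : 0 < m) (hL : f * q = L + e * m)
    (hcop : IsCoprime q m) :
    (∃ i j : ℤ, 0 ≤ i ∧ 0 ≤ j ∧ L * x = i * m + j * q) ↔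
      ∃ k : ℤ, e * x ≤ k * q ∧ k * m ≤ f * x := by
  constructor
  · rintro ⟨i, j, hi, hj, h⟩
    have h1 : q * (f * x - j) = m * (i + e * x) := by linear_combination x * hL + h
    have h2 : q ∣ m * (i + e * x) := ⟨_, h1.symm⟩
    obtain ⟨k, hk⟩ := hcop.dvd_of_dvd_mul_left h2
    refine ⟨k, by nlinarith, ?_⟩
    have h3 : q * (f * x - j) = q * (m * k) := by rw [h1, hk]; ring
    have h4 := mul_left_cancel₀ hq.ne' h3
    nlinarith
  · rintro ⟨k, h1, h2⟩
    refine ⟨k * q - e * x, f * x - k * m, by linarith, by linarith, ?_⟩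
    linear_combination (-x) * hL

/-- The separation inequality for one gap. -/
lemma sep (a b c : ℕ) (hb : b ≠ 0) (g : ℤ) (hg : 0 < g) (hgap : g ∉ T a b c) (s : ℤ)
    (hs : s ∈ T a b c) (hs0 : 0 < s) (hsg : s < g) :
    ∃ k : ℤ, ((a : ℤ) * g / b) * s + 1 ≤ k * g ∧ k * g + 1 ≤ ((a : ℤ) * g / b + 1) * s := by
  have hb' : (0 : ℤ) < b := by exact_mod_cast Nat.pos_of_ne_zero hb
  simp only [T, Set.mem_ofPred_eq, not_le] at hgap hs
  set n := (a : ℤ) * g / b with hn
  set r := (a : ℤ) * g % b with hr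
  set k := (a : ℤ) * s / b with hk
  set r' := (a : ℤ) * s % b with hr'
  have e1 : (a : ℤ) * g = b * n + r := (Int.mul_ediv_add_emod _ _).symm
  have e2 : (a : ℤ) * s = b * k + r' := (Int.mul_ediv_add_emod _ _).symm
  have r1 : r < b := Int.emod_lt_of_pos _ hb'
  have r2 : 0 ≤ r' := Int.emod_nonneg _ hb'.ne'
  have hc : (0 : ℤ) ≤ c := by positivity
  refine ⟨k, ?_, ?_⟩
  · have : (b : ℤ) * (n * s) < b * (k * g) := by
      have h1 : (b : ℤ) * (n * s) = a * g * s - r * s := by rw [e1]; ring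
      have h2 : (b : ℤ) * (k * g) = a * g * s - r' * g := by
        have : (b : ℤ) * (k * g) = (a * s - r') * g := by rw [e2]; ring
        rw [this]; ring
      rw [h1, h2]
      nlinarith
    have := lt_of_mul_lt_mul_left this hb'.le
    linarith
  · have : (b : ℤ) * (k * g) < b * ((n + 1) * s) := by
      have h1 : (b : ℤ) * ((n + 1) * s) = a * g * s + (b - r) * s := by
        have : (b : ℤ) * ((n + 1) * s) = (b * n + r) * s + (b - r) * s := by ring
        rw [this, ← e1]
      have h2 : (b : ℤ) * (k * g) = a * g * s - r' * g := by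
        have : (b : ℤ) * (k * g) = (a * s - r') * g := by rw [e2]; ring
        rw [this]; ring
      rw [h1, h2]
      nlinarith
    have := lt_of_mul_lt_mul_left this hb'.le
    linarith

lemma aux1 (g : ℤ) (h : 1 ≤ g) : 2 ≤ 2 * g * (g + 1) - 1 - g := by nlinarith

lemma aux2 (g s : ℤ) (hg : 1 ≤ g) (hs : 0 < s) (h : s + 1 ≤ g) : g * s ≤ 2 * g * (g + 1) := by
  nlinarith

lemma aux3 (g : ℤ) (h : 1 ≤ g) :
    g * (2 * g * (g + 1)) - 1 ≤ (2 * g * (g + 1) - 1 - g) * (g + 1) := by
  nlinarith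

lemma aux4 (g : ℤ) (h : 1 ≤ g) : 4 ≤ 2 * g * (g + 1) := by nlinarith

/-- For a gap `g` and a large prime `L` there are `q`, `m` with the required coprimality such that
`S ⊆ ⟨q, m⟩ / L` and `g ∉ ⟨q, m⟩ / L`. -/
lemma one_gap (a b c : ℕ) (hb : b ≠ 0) (g : ℕ) (hg : 0 < g) (hgap : (g : ℤ) ∉ T a b c)
    (L : ℕ) (hLp : L.Prime) (hL : (2 * g * (g + 1)) ^ 3 ≤ L) :
    ∃ q m : ℕ, 0 < q ∧ 0 < m ∧ Nat.Coprime q m ∧ Nat.Coprime L m ∧ Nat.Coprime L q ∧
      (∀ s : ℕ, ((s : ℤ) ∈ T a b c ∨ s = 0) → L * s ∈ AddSubmonoid.closure ({q, m} : Set ℕ)) ∧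
      L * g ∉ AddSubmonoid.closure ({q, m} : Set ℕ) := by
  set t : ℕ := 2 * g * (g + 1) with ht
  have hg1 : 1 ≤ g := hg
  set n : ℤ := (a : ℤ) * g / b with hn
  have hn0 : 0 ≤ n := by positivity
  set q : ℕ := g * t with hq
  set e : ℤ := n * t + 1 with he
  set d : ℕ := t - 1 - g with hd
  have htg : g + 1 < t := by rw [ht]; nlinarith
  have htz : (t : ℤ) = 2 * g * (g + 1) := by rw [ht]; push_cast; ring
  have hdz : (d : ℤ) = t - 1 - g := by rw [hd]; omega
  have hd1 : (1 : ℤ) ≤ d := by rw [hdz]; have : (g : ℤ) + 1 < t := by exact_mod_cast htg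
                               linarith
  have hgz : (1 : ℤ) ≤ g := by exact_mod_cast hg1
  have htz1 : (4 : ℤ) ≤ t := by rw [htz]; exact aux4 g hgz
  have hqz : (q : ℤ) = g * t := by rw [hq]; push_cast; ring
  have hqpos : (0 : ℤ) < q := by rw [hqz]; positivity
  have hLz : ((t : ℤ)) ^ 3 ≤ L := by exact_mod_cast hL
  have hcop : IsCoprime e (q : ℤ) := by
    rw [hqz]
    refine IsCoprime.mul_right ?_ ?_
    · refine ⟨1, -(2 * (g + 1) * n), ?_⟩
      rw [he, htz]; ring
    · exact ⟨1, -n, by rw [he]; ring⟩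
  obtain ⟨u, v, huv⟩ := hcop
  -- choice of m
  set M : ℤ := (L : ℤ) / d with hM
  have hM1 : M * d ≤ L := Int.ediv_mul_le _ (by linarith)
  have hM2 : (L : ℤ) < (M + 1) * d := by
    have := Int.lt_ediv_add_one_mul_self (L : ℤ) (show (0 : ℤ) < d by linarith)
    exact this
  set m : ℤ := M - (M - (-(L : ℤ) * u)) % q with hm
  have hmod0 : 0 ≤ (M - (-(L : ℤ) * u)) % q := Int.emod_nonneg _ hqpos.ne'
  have hmod1 : (M - (-(L : ℤ) * u)) % q < q := Int.emod_lt_of_pos _ hqpos
  have hmM : m ≤ M := by rw [hm]; linarith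
  have hmM' : M + 1 - q ≤ m := by rw [hm]; linarith
  have hmdiv : (q : ℤ) ∣ L + e * m := by
    have h1 : (q : ℤ) ∣ m + L * u := by
      rw [hm]
      have h2 := Int.mul_ediv_add_emod (M - (-(L : ℤ) * u)) q
      exact ⟨(M - (-(L : ℤ) * u)) / q, by linarith⟩
    have h3 : (L : ℤ) + e * m = e * (m + L * u) + q * (v * L) := by
      linear_combination (L : ℤ) * (-huv)
    rw [h3]
    exact dvd_add (Dvd.dvd.mul_left h1 _) (Dvd.intro _ rfl)
  obtain ⟨f, hf⟩ := hmdiv
  -- bounds for m
  clear_value m M d e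
  have hmd : m * d ≤ L := le_trans (mul_le_mul_of_nonneg_right hmM (by linarith)) hM1
  have hmt : (L : ℤ) < m * (t - 1) := by
    have h1 : ((L : ℤ)) * d < (m * (t - 1)) * d := by
      have h2 : q * ((t : ℤ) - 1) * d ≤ (L : ℤ) * g := by
        rw [hqz]
        have h5 : ((t : ℤ) - 1) * d ≤ t * t := by
          apply mul_le_mul <;> linarith
        have h7 : (t : ℤ) * (((t : ℤ) - 1) * d) ≤ L := by
          refine le_trans (mul_le_mul_of_nonneg_left h5 (by linarith)) ?_
          calc (t : ℤ) * (t * t) = t ^ 3 := by ring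
            _ ≤ L := hLz
        calc (g : ℤ) * t * (t - 1) * d = (t * ((t - 1) * d)) * g := by ring
          _ ≤ L * g := mul_le_mul_of_nonneg_right h7 (by linarith)
      have h3 : (L : ℤ) * (t - 1) < (M + 1) * d * (t - 1) :=
        mul_lt_mul_of_pos_right hM2 (by linarith)
      have h4 : (M + 1 - q) * (t - 1) * d ≤ m * (t - 1) * d := by
        apply mul_le_mul_of_nonneg_right _ (by linarith)
        apply mul_le_mul_of_nonneg_right hmM' (by linarith)
      have h6 : (L : ℤ) * (t - 1) = L * d + L * g := by rw [hdz]; ring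
      have h8 : (M + 1 - q) * (t - 1) * d = (M + 1) * d * (t - 1) - q * (t - 1) * d := by ring
      linarith
    exact lt_of_mul_lt_mul_right h1 (by linarith)
  have hLpos : (0 : ℤ) < L := by exact_mod_cast hLp.pos
  have hmpos : 0 < m := by
    by_contra hcon
    push Not at hcon
    have : m * ((t : ℤ) - 1) ≤ 0 := mul_nonpos_of_nonpos_of_nonneg hcon (by linarith)
    linarith
  have hmL : m < L := by
    have hd2 : (2 : ℤ) ≤ d := by
      rw [hdz, htz]; exact aux1 g hgz
    have := mul_le_mul_of_nonneg_left hd2 hmpos.le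
    linarith
  have hgt : (g : ℤ) < t := by linarith [show (g : ℤ) + 1 < t by exact_mod_cast htg]
  have hqL : (q : ℤ) < L := by
    rw [hqz]
    have h1 : (g : ℤ) * t < t * t := mul_lt_mul_of_pos_right hgt (by linarith)
    have h2 : (t : ℤ) * t ≤ t ^ 3 := by
      have h3 : (t : ℤ) ^ 3 = t * t * t := by ring
      rw [h3]
      have h4 : (0 : ℤ) ≤ t * t := mul_self_nonneg _
      nlinarith
    linarith
  have hfpos : f * q = L + e * m := by linarith
  obtain ⟨m', rfl⟩ : ∃ m' : ℕ, m = m' := ⟨m.toNat, by rw [Int.toNat_of_nonneg hmpos.le]⟩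
  have hm'pos : 0 < m' := by exact_mod_cast hmpos
  have hq'pos : 0 < q := by exact_mod_cast hqpos
  have hcLm : Nat.Coprime L m' :=
    Nat.coprime_of_lt_prime hm'pos.ne' (by exact_mod_cast hmL) hLp
  have hcLq : Nat.Coprime L q :=
    Nat.coprime_of_lt_prime hq'pos.ne' (by exact_mod_cast hqL) hLp
  have hcqm : Nat.Coprime q m' := by
    have h1 : ((Nat.gcd q m' : ℕ) : ℤ) ∣ L := by
      have h2 : (L : ℤ) = q * f - e * m' := by linarith
      rw [h2]
      refine dvd_sub (Dvd.dvd.mul_right ?_ _) (Dvd.dvd.mul_left ?_ _)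
      · exact Int.natCast_dvd_natCast.2 (Nat.gcd_dvd_left _ _)
      · exact Int.natCast_dvd_natCast.2 (Nat.gcd_dvd_right _ _)
    have h2 : Nat.gcd q m' ∣ L := Int.natCast_dvd_natCast.1 h1
    have h3 : Nat.gcd q m' ∣ Nat.gcd L q := Nat.dvd_gcd h2 (Nat.gcd_dvd_left _ _)
    rw [hcLq] at h3
    exact Nat.dvd_one.1 h3
  have hcz : IsCoprime (q : ℤ) (m' : ℤ) := Nat.isCoprime_iff_coprime.2 hcqm
  -- membership
  have hmem : ∀ x : ℕ, L * x ∈ AddSubmonoid.closure ({q, m'} : Set ℕ) ↔
      ∃ k : ℤ, e * x ≤ k * q ∧ k * m' ≤ f * x := by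
    intro x
    rw [AddSubmonoid.mem_closure_pair, ← key hqpos hmpos hfpos hcz]
    constructor
    · rintro ⟨j, i, h⟩
      refine ⟨i, j, by positivity, by positivity, ?_⟩
      have h' : j * q + i * m' = L * x := h
      have : ((j * q + i * m' : ℕ) : ℤ) = ((L * x : ℕ) : ℤ) := by rw [h']
      push_cast at this
      linarith
    · rintro ⟨i, j, hi, hj, h⟩
      refine ⟨j.toNat, i.toNat, ?_⟩
      have : ((j.toNat * q + i.toNat * m' : ℕ) : ℤ) = ((L * x : ℕ) : ℤ) := by
        push_cast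
        rw [Int.toNat_of_nonneg hi, Int.toNat_of_nonneg hj]
        linarith
      have h2 := Int.natCast_inj.1 this
      simpa using h2
  refine ⟨q, m', hq'pos, hm'pos, hcqm, hcLm, hcLq, ?_, ?_⟩
  · intro s hs
    rw [hmem]
    rcases Nat.eq_zero_or_pos s with h0 | hs0
    · subst h0
      exact ⟨0, by simp, by simp⟩
    have hsT : (s : ℤ) ∈ T a b c := by
      rcases hs with h | h
      · exact h
      · omega
    have hsz : (0 : ℤ) < s := by exact_mod_cast hs0
    rcases lt_trichotomy s g with hlt | heq | hgt'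
    · obtain ⟨k, hk1, hk2⟩ := sep a b c hb g (by linarith) hgap s hsT hsz (by exact_mod_cast hlt)
      rw [← hn] at hk1 hk2
      have hsg : (s : ℤ) + 1 ≤ g := by exact_mod_cast hlt
      have hgst : (g : ℤ) * s ≤ t := by rw [htz]; exact aux2 g s hgz hsz hsg
      refine ⟨k, ?_, ?_⟩
      · rw [hqz, he]
        have h1 : (n * s + 1) * t ≤ (k * g) * t := mul_le_mul_of_nonneg_right hk1 (by linarith)
        have h2 : (s : ℤ) ≤ t := by linarith
        linarith
      · have h1 : (k * g + 1) * (t * m') ≤ ((n + 1) * s) * (t * m') :=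
          mul_le_mul_of_nonneg_right hk2 (by positivity)
        have h2 : (m' : ℤ) * (t * s - t - s) ≤ L * s := by
          have h3 : (m' : ℤ) * d * s ≤ L * s := mul_le_mul_of_nonneg_right hmd hsz.le
          have h4 : (m' : ℤ) * (t * s - t - s) ≤ m' * d * s := by
            have h5 : (t : ℤ) * s - t - s ≤ d * s := by rw [hdz]; linarith
            have h6 := mul_le_mul_of_nonneg_left h5 hmpos.le
            linarith
          linarith
        have h7 : (k * m') * q ≤ (f * s) * q := by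
          have h8 : f * s * q = (L + e * m') * s := by rw [← hfpos]; ring
          rw [h8, hqz, he]
          linarith
        exact le_of_mul_le_mul_right h7 hqpos
    · subst heq
      exact absurd hsT hgap
    · have hsg : (g : ℤ) + 1 ≤ s := by exact_mod_cast hgt'
      refine ⟨(e * s + q - 1) / q, ?_, ?_⟩
      · have h1 := Int.mul_ediv_add_emod (e * s + q - 1) q
        have h2 := Int.emod_lt_of_pos (e * s + q - 1) hqpos
        linarith
      · set k := (e * s + q - 1) / q with hk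
        have h1 := Int.mul_ediv_add_emod (e * s + q - 1) q
        have h2 := Int.emod_nonneg (e * s + q - 1) hqpos.ne'
        rw [← hk] at h1
        have h3 : k * q ≤ e * s + q - 1 := by linarith
        have h4 : (k * q) * m' ≤ (e * s + q - 1) * m' :=
          mul_le_mul_of_nonneg_right h3 hmpos.le
        have h5 : ((q : ℤ) - 1) * m' ≤ L * s := by
          have h6 : (m' : ℤ) * d * (g + 1) ≤ L * s := by
            calc (m' : ℤ) * d * (g + 1) ≤ L * (g + 1) :=
                  mul_le_mul_of_nonneg_right hmd (by linarith)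
              _ ≤ L * s := mul_le_mul_of_nonneg_left hsg hLpos.le
          have h7 : ((q : ℤ) - 1) * m' ≤ m' * d * (g + 1) := by
            have h8 : (q : ℤ) - 1 ≤ d * (g + 1) := by
              rw [hqz, hdz, htz]; exact aux3 g hgz
            have := mul_le_mul_of_nonneg_left h8 hmpos.le
            linarith
          linarith
        have h9 : (k * m') * q ≤ (f * s) * q := by
          have h8 : f * s * q = (L + e * m') * s := by rw [← hfpos]; ring
          rw [h8]
          linarith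
        exact le_of_mul_le_mul_right h9 hqpos
  · rw [hmem]
    rintro ⟨k, hk1, hk2⟩
    have h1 : n < k := by
      have : n * (g * t) < k * (g * t) := by
        rw [hqz, he] at hk1
        linarith
      exact lt_of_mul_lt_mul_right this (by positivity)
    have h2 : f * g < (n + 1) * m' := by
      have h3 : f * g * t < (n + 1) * m' * t := by
        have h4 : f * g * t = L + e * m' := by rw [← hfpos, hqz]; ring
        rw [h4, he]
        linarith
      exact lt_of_mul_lt_mul_right h3 (by linarith)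
    have h5 : k * m' < (n + 1) * m' := lt_of_le_of_lt hk2 h2
    have h6 := lt_of_mul_lt_mul_right h5 hmpos.le
    linarith

/-- **Contracted modular numerical semigroups admit Toms decompositions.** For all nonnegative
integers `a, b, c` with `b ≠ 0` there are positive integers `L`, `q_1, …, q_n`, `m_1, …, m_n`
(`n ≥ 1`) with `gcd(q_i, m_i) = gcd(L, m_i) = gcd(L, q_i) = 1` such that
`T(a,b,c) ∪ {0} = {x ∈ ℕ : L x ∈ ⟨q_i, m_i⟩ for all i}`. -/
theorem result (a b c : ℕ) (hb : b ≠ 0) :
    ∃ (L n : ℕ) (q m : Fin n → ℕ), 0 < L ∧ 0 < n ∧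
      (∀ i, 0 < q i ∧ 0 < m i ∧
        Nat.gcd (q i) (m i) = 1 ∧ Nat.gcd L (m i) = 1 ∧ Nat.gcd L (q i) = 1) ∧
      T a b c ∪ {0} =
        (fun x : ℕ => (x : ℤ)) '' {x : ℕ | ∀ i, L * x ∈ AddSubmonoid.closure {q i, m i}} := by
  classical
  set F : ℕ := b + c with hF
  obtain ⟨L, hLge, hLp⟩ := Nat.exists_infinite_primes ((2 * F * (F + 1)) ^ 3)
  have hb' : (0 : ℤ) < b := by exact_mod_cast Nat.pos_of_ne_zero hb
  have hex : ∀ g : ℕ, ∃ q m : ℕ, 0 < q ∧ 0 < m ∧
      Nat.gcd q m = 1 ∧ Nat.gcd L m = 1 ∧ Nat.gcd L q = 1 ∧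
      (∀ s : ℕ, ((s : ℤ) ∈ T a b c ∨ s = 0) → L * s ∈ AddSubmonoid.closure ({q, m} : Set ℕ)) ∧
      (g ≤ F → ¬ ((g : ℤ) ∈ T a b c ∨ g = 0) →
        L * g ∉ AddSubmonoid.closure ({q, m} : Set ℕ)) := by
    intro g
    by_cases hg : g ≤ F ∧ ¬ ((g : ℤ) ∈ T a b c ∨ g = 0)
    · obtain ⟨hgF, hg2⟩ := hg
      push Not at hg2
      have hL : (2 * g * (g + 1)) ^ 3 ≤ L := by
        refine le_trans (Nat.pow_le_pow_left ?_ 3) hLge
        exact Nat.mul_le_mul (by omega) (by omega)
      obtain ⟨q, m, h1, h2, h3, h4, h5, h6, h7⟩ :=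
        one_gap a b c hb g (Nat.pos_of_ne_zero hg2.2) hg2.1 L hLp hL
      exact ⟨q, m, h1, h2, h3, h4, h5, h6, fun _ _ => h7⟩
    · refine ⟨1, 1, one_pos, one_pos, by simp, by simp, by simp, ?_, ?_⟩
      · intro s _
        rw [AddSubmonoid.mem_closure_pair]
        exact ⟨L * s, 0, by simp⟩
      · intro h1 h2
        exact absurd ⟨h1, h2⟩ hg
  choose q m h1 h2 h3 h4 h5 h6 h7 using hex
  refine ⟨L, F + 1, fun i => q i, fun i => m i, hLp.pos, Nat.succ_pos _,
    fun i => ⟨h1 i, h2 i, h3 i, h4 i, h5 i⟩, ?_⟩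
  ext x
  constructor
  · intro hx
    have hx0 : 0 ≤ x := by
      rcases hx with hx | hx
      · have : ((a : ℤ) * x) % (b : ℤ) ≤ x - (c : ℤ) := hx
        have h := Int.emod_nonneg ((a : ℤ) * x) hb'.ne'
        have hc : (0 : ℤ) ≤ c := by positivity
        linarith
      · rw [Set.mem_singleton_iff] at hx
        exact hx.ge
    obtain ⟨y, rfl⟩ : ∃ y : ℕ, x = y := ⟨x.toNat, by rw [Int.toNat_of_nonneg hx0]⟩
    refine ⟨y, ?_, rfl⟩
    intro i
    apply h6
    rcases hx with hx | hx
    · exact Or.inl hx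
    · right
      simpa using hx
  · rintro ⟨y, hy, rfl⟩
    by_contra hcon
    have hcon' : ¬ ((y : ℤ) ∈ T a b c ∨ y = 0) := by
      intro h
      apply hcon
      rcases h with h | h
      · exact Or.inl h
      · right; simp [h]
    have hyF : y ≤ F := by
      by_contra hlt
      push Not at hlt
      apply hcon'
      left
      have h := Int.emod_lt_of_pos ((a : ℤ) * y) hb'
      have h' : ((b + c : ℕ) : ℤ) < y := by exact_mod_cast hlt
      push_cast at h'
      change ((a : ℤ) * y) % (b : ℤ) ≤ y - (c : ℤ)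
      linarith
    exact h7 y hyF hcon' (hy ⟨y, by omega⟩)

end Pool.Agent.Results.MP_94066b_nt.ContractedModularToms
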